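import Mathlib

namespace Pool.Agent.H.MP_7ad145_co
open Finset

def tb : List (Fin 16 × Fin 16 × Fin 3) := [(15,14,1),(15,13,1),(15,12,1),(14,11,1),(14,10,1),
  (15,9,0),(15,8,0),(14,7,0),(14,6,0),(5,4,2),(3,2,2),(1,0,2)]

def FF : Finset (Finset (Fin 16)) := (tb.map fun t => ({t.1, t.2.1} : Finset (Fin 16))).toFinset

def pp (e : Finset (Fin 16)) : Fin 3 :=
  if ∃ x ∈ e, x.val ≤ 5 then 2 else if ∃ x ∈ e, x.val ≤ 9 then 0 else 1

lemma tb_ok : ∀ t ∈ tb, t.1 ≠ t.2.1 ∧ pp {t.1, t.2.1} = t.2.2 := by decide +kernel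

lemma mem_FF {e : Finset (Fin 16)} : e ∈ FF ↔ ∃ t ∈ tb, e = {t.1, t.2.1} := by
  simp only [FF, List.mem_toFinset, List.mem_map]
  exact ⟨fun ⟨t, h, e⟩ => ⟨t, h, e.symm⟩, fun ⟨t, h, e⟩ => ⟨t, h, e.symm⟩⟩

lemma FF_card : ∀ e ∈ FF, e.card = 2 := by
  intro e he
  obtain ⟨t, ht, rfl⟩ := mem_FF.1 he
  exact card_pair (tb_ok t ht).1

lemma FF_lin : ∀ e ∈ FF, ∀ e' ∈ FF, e ≠ e' → (e ∩ e').card ≤ 1 := by
  intro e he e' he' hne
  by_contra hc
  have a := eq_of_subset_of_card_le (inter_subset_left (s₁ := e) (s₂ := e'))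
    (by rw [FF_card e he]; omega)
  have b := eq_of_subset_of_card_le (inter_subset_right (s₁ := e) (s₂ := e'))
    (by rw [FF_card e' he']; omega)
  exact hne (a.symm.trans b)

lemma FF_surj : ∀ i : Fin 3, ∃ e ∈ FF, pp e = i := by
  have : ∀ i : Fin 3, ∃ t ∈ tb, t.2.2 = i := by decide
  intro i
  obtain ⟨t, ht, rfl⟩ := this i
  exact ⟨_, mem_FF.2 ⟨t, ht, rfl⟩, (tb_ok t ht).2⟩

lemma embed {V : Type} [DecidableEq V] (R : Fin 3 → V → V → Prop) (u v : V) (huv : u ≠ v)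
    (h0 : R 1 u v)
    (h1 : ∀ W : Finset V, W.card ≤ 15 → ∃ w, w ∉ W ∧ R 1 u w)
    (h2 : ∀ W : Finset V, W.card ≤ 15 → ∃ w, w ∉ W ∧ R 1 v w)
    (h3 : ∀ W : Finset V, W.card ≤ 15 → ∃ w, w ∉ W ∧ R 0 u w)
    (h4 : ∀ W : Finset V, W.card ≤ 15 → ∃ w, w ∉ W ∧ R 0 v w)
    (h5 : ∀ W : Finset V, W.card ≤ 14 → ∃ a b, a ≠ b ∧ a ∉ W ∧ b ∉ W ∧ R 2 a b) :
    ∃ φ : Fin 16 → V, Function.Injective φ ∧ ∀ t ∈ tb, R t.2.2 (φ t.1) (φ t.2.1) := by
  have s1 : ∀ (Q : V → Prop), (∀ W : Finset V, W.card ≤ 15 → ∃ w, w ∉ W ∧ Q w) →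
      ∀ l : List V, l.Nodup → l.length ≤ 15 → ∃ w, (w :: l).Nodup ∧ Q w := by
    intro Q h l hl hn
    obtain ⟨w, a, b⟩ := h l.toFinset ((List.toFinset_card_le l).trans hn)
    exact ⟨w, List.nodup_cons.2 ⟨by simpa using a, hl⟩, b⟩
  have s2 : ∀ l : List V, l.Nodup → l.length ≤ 14 → ∃ a b, (b :: a :: l).Nodup ∧ R 2 a b := by
    intro l hl hn
    obtain ⟨a, b, c, d, e, f⟩ := h5 l.toFinset ((List.toFinset_card_le l).trans hn)
    refine ⟨a, b, List.nodup_cons.2 ⟨?_, List.nodup_cons.2 ⟨by simpa using d, hl⟩⟩, f⟩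
    simp only [List.mem_cons, not_or]
    exact ⟨c.symm, by simpa using e⟩
  have n0 : [v, u].Nodup := by simp [huv.symm]
  obtain ⟨x13, n1, r1⟩ := s1 _ h1 _ n0 (by simp)
  obtain ⟨x12, n2, r2⟩ := s1 _ h1 _ n1 (by simp)
  obtain ⟨x11, n3, r3⟩ := s1 _ h2 _ n2 (by simp)
  obtain ⟨x10, n4, r4⟩ := s1 _ h2 _ n3 (by simp)
  obtain ⟨x9, n5, r5⟩ := s1 _ h3 _ n4 (by simp)
  obtain ⟨x8, n6, r6⟩ := s1 _ h3 _ n5 (by simp)
  obtain ⟨x7, n7, r7⟩ := s1 _ h4 _ n6 (by simp)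
  obtain ⟨x6, n8, r8⟩ := s1 _ h4 _ n7 (by simp)
  obtain ⟨x5, x4, n9, r9⟩ := s2 _ n8 (by simp)
  obtain ⟨x3, x2, n10, r10⟩ := s2 _ n9 (by simp)
  obtain ⟨x1, x0, n11, r11⟩ := s2 _ n10 (by simp)
  refine ⟨fun i => [x0, x1, x2, x3, x4, x5, x6, x7, x8, x9, x10, x11, x12, x13, v, u].get i,
    List.nodup_iff_injective_get.1 n11, ?_⟩
  intro t ht
  simp only [tb, List.mem_cons, List.not_mem_nil, or_false] at ht
  rcases ht with rfl | rfl | rfl | rfl | rfl | rfl | rfl | rfl | rfl | rfl | rfl | rfl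
  exacts [h0, r1, r2, r3, r4, r5, r6, r7, r8, r9, r10, r11]

lemma avoid {V : Type} [DecidableEq V] (S : Finset V) (h : 16 ≤ S.card) (W : Finset V)
    (hW : W.card ≤ 15) : ∃ w, w ∉ W ∧ w ∈ S := by
  obtain ⟨w, a, b⟩ := exists_mem_notMem_of_card_lt_card (s := W) (t := S) (by omega)
  exact ⟨w, b, a⟩

lemma exF (n : ℕ) (H : Finset (Finset (Fin n))) (h2 : ∀ e ∈ H, e.card = 2)
    (hn : ¬ ∃ φ : Fin 16 → Fin n, Function.Injective φ ∧ ∀ e ∈ FF, e.image φ ∈ H) :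
    H.card ≤ 15 * n := by
  classical
  by_cases hb : ∀ W : Finset (Fin n), W.card ≤ 14 →
      ∃ a b, a ≠ b ∧ a ∉ W ∧ b ∉ W ∧ ({a, b} : Finset (Fin n)) ∈ H
  · let N : Fin n → Finset (Fin n) := fun u => univ.filter fun w => ({u, w} : Finset (Fin n)) ∈ H
    have key : ∀ u v, u ≠ v → ({u, v} : Finset (Fin n)) ∈ H → (N u).card ≤ 15 ∨ (N v).card ≤ 15 := by
      intro u v huv h
      by_contra hc
      push Not at hc
      have a1 : ∀ W : Finset (Fin n), W.card ≤ 15 → ∃ w, w ∉ W ∧ ({u, w} : Finset (Fin n)) ∈ H :=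
        fun W hW => (avoid _ hc.1 W hW).imp fun w h => ⟨h.1, by simpa [N] using h.2⟩
      have a2 : ∀ W : Finset (Fin n), W.card ≤ 15 → ∃ w, w ∉ W ∧ ({v, w} : Finset (Fin n)) ∈ H :=
        fun W hW => (avoid _ hc.2 W hW).imp fun w h => ⟨h.1, by simpa [N] using h.2⟩
      obtain ⟨φ, i, r⟩ := embed (fun _ a b => ({a, b} : Finset (Fin n)) ∈ H) u v huv h a1 a2 a1 a2 hb
      refine hn ⟨φ, i, fun e he => ?_⟩
      obtain ⟨t, ht, rfl⟩ := mem_FF.1 he
      simpa using r t ht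
    have sub : H ⊆ (univ.filter fun u => (N u).card ≤ 15).biUnion
        fun u => (N u).image fun w => ({u, w} : Finset (Fin n)) := by
      intro e he
      obtain ⟨u, v, huv, rfl⟩ := card_eq_two.1 (h2 e he)
      rcases key u v huv he with h | h
      · exact mem_biUnion.2 ⟨u, by simpa using h, mem_image.2 ⟨v, by simpa [N] using he, rfl⟩⟩
      · refine mem_biUnion.2 ⟨v, by simpa using h, mem_image.2 ⟨u, ?_, pair_comm _ _⟩⟩
        simpa [N, pair_comm v u] using he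
    refine (card_le_card sub).trans ((card_biUnion_le_card_mul _ _ 15 fun u hu =>
      card_image_le.trans (mem_filter.1 hu).2).trans ?_)
    have := card_filter_le (univ : Finset (Fin n)) fun u => (N u).card ≤ 15
    simp only [card_univ, Fintype.card_fin] at this
    nlinarith
  · push Not at hb
    obtain ⟨W, hW, h⟩ := hb
    have sub : H ⊆ (W ×ˢ univ).image fun x : Fin n × Fin n => ({x.1, x.2} : Finset (Fin n)) := by
      intro e he
      obtain ⟨u, v, huv, rfl⟩ := card_eq_two.1 (h2 e he)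
      by_cases hu : u ∈ W
      · exact mem_image.2 ⟨(u, v), by simpa using hu, rfl⟩
      by_cases hv : v ∈ W
      · exact mem_image.2 ⟨(v, u), by simpa using hv, pair_comm _ _⟩
      exact absurd he (h u v huv hu hv)
    refine (card_le_card sub).trans (card_image_le.trans ?_)
    simp only [card_product, card_univ, Fintype.card_fin]
    nlinarith

lemma small (α : Type) [Fintype α] [DecidableEq α] (k : ℕ) :
    (univ.filter fun S : Finset α => S.card ≤ k).card ≤ (Fintype.card α + 1) ^ k := by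
  classical
  have := card_le_card_of_surjOn (s := (univ : Finset (Fin k → Option α)))
    (t := univ.filter fun S : Finset α => S.card ≤ k)
    (fun f => univ.filter fun a => ∃ i, f i = some a) ?_
  · simpa using this
  · intro S hS
    have hS : S.card ≤ k := by simpa using hS
    refine ⟨fun i => S.toList[i.val]?, by simp, ?_⟩
    ext a
    simp only [mem_filter, mem_univ, true_and]
    rw [← mem_toList, List.mem_iff_getElem?]
    constructor
    · rintro ⟨i, h⟩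
      exact ⟨i.val, h⟩
    · rintro ⟨i, h⟩
      have : i < S.toList.length := (List.getElem?_eq_some_iff.1 h).1
      rw [length_toList] at this
      exact ⟨⟨i, by omega⟩, h⟩

lemma enum {n : ℕ} (z : Fin n) (W : Finset (Fin n)) (k : ℕ) (h : W.card ≤ k) :
    ∃ q : Fin k → Fin n, ∀ w ∈ W, ∃ i, q i = w := by
  refine ⟨fun i => (W.toList[i.val]?).getD z, fun w hw => ?_⟩
  obtain ⟨i, hi⟩ := List.mem_iff_getElem?.1 (mem_toList.2 hw)
  have : i < W.toList.length := (List.getElem?_eq_some_iff.1 hi).1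
  rw [length_toList] at this
  exact ⟨⟨i, by omega⟩, by simp [hi]⟩

end Pool.Agent.H.MP_7ad145_co
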