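import Pool.Agent.H.MP_7ad145_co.A

namespace Pool.Agent.H.MP_7ad145_co
open Finset

abbrev Col (n : ℕ) := Finset (Fin n) → Option (Fin 3)

abbrev KK (n : ℕ) : Finset (Finset (Fin n)) := powersetCard 2 univ

def Good {n : ℕ} (H : Finset (Finset (Fin n))) (c : Col n) : Prop :=
  (∀ e, c e = none ↔ e ∉ H) ∧ ¬ ∃ φ : Fin 16 → Fin n, Function.Injective φ ∧
    (∀ e ∈ FF, e.image φ ∈ H) ∧
    ∀ e ∈ FF, ∀ e' ∈ FF, (c (e.image φ) = c (e'.image φ) ↔ pp e = pp e')

variable {n : ℕ}

def cl (c : Col n) (e : Finset (Fin n)) : Fin 3 := (c e).getD 0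

def Nb (c : Col n) (γ : Fin 3) (u : Fin n) : Finset (Fin n) :=
  univ.filter fun w => w ≠ u ∧ cl c {u, w} = γ

def Big (c : Col n) (γ : Fin 3) : Prop :=
  ∀ W : Finset (Fin n), W.card ≤ 14 → ∃ a b, a ≠ b ∧ a ∉ W ∧ b ∉ W ∧ cl c {a, b} = γ

lemma pair_mem {u v : Fin n} (h : u ≠ v) : ({u, v} : Finset (Fin n)) ∈ KK n :=
  mem_powersetCard.2 ⟨subset_univ _, card_pair h⟩

lemma c_eq {c : Col n} (h : Good (KK n) c) {e} (he : e ∈ KK n) : c e = some (cl c e) := by
  have := mt (h.1 e).1 (not_not.2 he)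
  unfold cl
  cases hc : c e with
  | none => exact absurd hc this
  | some a => rfl

lemma c_ext {c c' : Col n} (h : Good (KK n) c) (h' : Good (KK n) c')
    (e : ∀ u v, u ≠ v → cl c {u, v} = cl c' {u, v}) : c = c' := by
  funext x
  by_cases hx : x ∈ KK n
  · obtain ⟨u, v, huv, rfl⟩ := card_eq_two.1 (mem_powersetCard.1 hx).2
    rw [c_eq h hx, c_eq h' hx, e u v huv]
  · rw [(h.1 x).2 hx, (h'.1 x).2 hx]

lemma star {c : Col n} (h : Good (KK n) c) {u v : Fin n} (huv : u ≠ v) {γ δ ε : Fin 3}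
    (h0 : cl c {u, v} = γ) (d1 : δ ≠ γ) (d2 : ε ≠ γ) (d3 : ε ≠ δ)
    (a1 : 16 ≤ (Nb c γ u).card) (a2 : 16 ≤ (Nb c γ v).card)
    (a3 : 16 ≤ (Nb c δ u).card) (a4 : 16 ≤ (Nb c δ v).card) (hb : Big c ε) : False := by
  have av : ∀ γ u, 16 ≤ (Nb c γ u).card → ∀ W : Finset (Fin n), W.card ≤ 15 →
      ∃ w, w ∉ W ∧ cl c {u, w} = γ := fun γ u h W hW =>
    (avoid _ h W hW).imp fun w h => ⟨h.1, (mem_filter.1 h.2).2.2⟩
  let col : Fin 3 → Fin 3 := ![δ, γ, ε]
  have ci : Function.Injective col := by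
    intro i j
    fin_cases i <;> fin_cases j <;> simp [col, d1, d2, d3, d1.symm, d2.symm, d3.symm]
  obtain ⟨φ, i, r⟩ := embed (fun k a b => cl c {a, b} = col k) u v huv h0 (av _ _ a1) (av _ _ a2)
    (av _ _ a3) (av _ _ a4) hb
  have k : ∀ e ∈ FF, e.image φ ∈ KK n ∧ c (e.image φ) = some (col (pp e)) := by
    intro e he
    obtain ⟨t, ht, rfl⟩ := mem_FF.1 he
    have m : ({φ t.1, φ t.2.1} : Finset (Fin n)) ∈ KK n := pair_mem (i.ne (tb_ok t ht).1)
    rw [image_insert, image_singleton, c_eq h m, r t ht, (tb_ok t ht).2]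
    exact ⟨m, rfl⟩
  refine h.2 ⟨φ, i, fun e he => (k e he).1, fun e he e' he' => ?_⟩
  rw [(k e he).2, (k e' he').2, Option.some_inj, ci.eq_iff]

open Classical in
lemma caseB : (univ.filter fun c : Col n => Good (KK n) c ∧ ∀ γ, Big c γ).card ≤
    8 ^ n * ((3 * n + 1) ^ 45) ^ n := by
  let Sm := univ.filter fun S : Finset (Fin n × Fin 3) => S.card ≤ 45
  let L : Col n → Fin n → Finset (Fin 3) := fun c u => univ.filter fun γ => 16 ≤ (Nb c γ u).card
  let Ex : Col n → Fin n → Finset (Fin n × Fin 3) := fun c u =>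
    univ.filter fun x => x.1 ≠ u ∧ cl c {u, x.1} = x.2 ∧ x.2 ∉ L c u
  have := card_le_card_of_injOn (s := univ.filter fun c : Col n => Good (KK n) c ∧ ∀ γ, Big c γ)
    (t := (univ : Finset (Fin n → Finset (Fin 3))) ×ˢ Fintype.piFinset fun _ : Fin n => Sm)
    (fun c => (L c, Ex c)) ?_ ?_
  · refine this.trans ?_
    rw [card_product, Fintype.card_piFinset, prod_const]
    have s := small (Fin n × Fin 3) 45
    simp only [Fintype.card_prod, Fintype.card_fin] at s
    simp only [card_univ, Fintype.card_fun, Fintype.card_finset, Fintype.card_fin]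
    rw [mul_comm 3 n]
    exact Nat.mul_le_mul_left _ (Nat.pow_le_pow_left s _)
  · intro c _
    simp only [coe_product, Set.mem_prod, coe_univ, Set.mem_univ, true_and, mem_coe,
      Fintype.mem_piFinset, Sm, mem_filter, mem_univ]
    intro u
    have sub : Ex c u ⊆ (univ.filter fun γ => γ ∉ L c u).biUnion
        fun γ => (Nb c γ u).image fun w => (w, γ) := by
      intro x hx
      obtain ⟨a, b, d⟩ := (mem_filter.1 hx).2
      exact mem_biUnion.2 ⟨x.2, by simpa using d, mem_image.2 ⟨x.1, by simp [Nb, a, b], rfl⟩⟩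
    refine (card_le_card sub).trans ((card_biUnion_le_card_mul _ _ 15 fun γ hγ =>
      card_image_le.trans ?_).trans ?_)
    · have := (mem_filter.1 hγ).2
      simp only [L, mem_filter, mem_univ, true_and] at this
      omega
    · have := card_filter_le (univ : Finset (Fin 3)) fun γ => γ ∉ L c u
      simp only [card_univ, Fintype.card_fin] at this
      omega
  · have key : ∀ c c' : Col n, L c = L c' → Ex c = Ex c' → ∀ u v, u ≠ v →
        cl c {u, v} ∉ L c u → cl c {u, v} = cl c' {u, v} := by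
      intro c c' _ e2 u v huv h
      have : (v, cl c {u, v}) ∈ Ex c u := mem_filter.2 ⟨mem_univ _, huv.symm, rfl, h⟩
      rw [e2] at this
      exact (mem_filter.1 this).2.2.1.symm
    intro c hc c' hc' e
    have hc := (mem_filter.1 (mem_coe.1 hc)).2
    have hc' := (mem_filter.1 (mem_coe.1 hc')).2
    simp only [Prod.mk.injEq] at e
    refine c_ext hc.1 hc'.1 fun u v huv => ?_
    by_contra hne
    have b1 : cl c {u, v} ∈ L c u := by_contra fun h => hne (key c c' e.1 e.2 u v huv h)
    have b2 : cl c {u, v} ∈ L c v := by_contra fun h => hne (by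
      rw [pair_comm u v] at h ⊢; exact key c c' e.1 e.2 v u huv.symm h)
    have b3 : cl c' {u, v} ∈ L c' u := by_contra fun h =>
      hne (key c' c e.1.symm e.2.symm u v huv h).symm
    have b4 : cl c' {u, v} ∈ L c' v := by_contra fun h => hne (by
      rw [pair_comm u v] at h ⊢; exact (key c' c e.1.symm e.2.symm v u huv.symm h).symm)
    rw [← e.1] at b3 b4
    obtain ⟨ε, d2, d3⟩ : ∃ ε, ε ≠ cl c {u, v} ∧ ε ≠ cl c' {u, v} := by
      generalize cl c {u, v} = a
      generalize cl c' {u, v} = b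
      revert a b; decide
    exact star hc.1 huv rfl (Ne.symm hne) d2 d3 (mem_filter.1 b1).2 (mem_filter.1 b2).2
      (mem_filter.1 b3).2 (mem_filter.1 b4).2 (hc.2 ε)

open Classical in
lemma caseA2 (q : Fin 28 → Fin n) (ε : Fin 3) : (univ.filter fun c : Col n => Good (KK n) c ∧
    ∀ a b, a ≠ b → (∀ i, q i ≠ a) → (∀ i, q i ≠ b) → cl c {a, b} = ε).card ≤ (3 ^ n) ^ 28 := by
  have := card_le_card_of_injOn (s := univ.filter fun c : Col n => Good (KK n) c ∧
    ∀ a b, a ≠ b → (∀ i, q i ≠ a) → (∀ i, q i ≠ b) → cl c {a, b} = ε)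
    (t := (univ : Finset (Fin 28 → Fin n → Fin 3))) (fun c i w => cl c {q i, w})
    (fun _ _ => by simp) ?_
  · simpa using this
  · intro c hc c' hc' e
    have hc := (mem_filter.1 (mem_coe.1 hc)).2
    have hc' := (mem_filter.1 (mem_coe.1 hc')).2
    refine c_ext hc.1 hc'.1 fun u v huv => ?_
    by_cases hu : ∃ i, q i = u
    · obtain ⟨i, rfl⟩ := hu
      exact congrFun (congrFun e i) v
    by_cases hv : ∃ i, q i = v
    · obtain ⟨i, rfl⟩ := hv
      rw [pair_comm]
      exact congrFun (congrFun e i) u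
    push Not at hu hv
    rw [hc.2 u v huv hu hv, hc'.2 u v huv hu hv]

open Classical in
lemma caseA1 (q : Fin 14 → Fin n) (z : Fin n) (ε : Fin 3) (μ : Fin 14 → Fin 3) :
    (univ.filter fun c : Col n => Good (KK n) c ∧
      (∀ a b, a ≠ b → (∀ i, q i ≠ a) → (∀ i, q i ≠ b) → cl c {a, b} ≠ ε) ∧
      ∀ i, q i ≠ z → (Nb c (μ i) (q i)).card ≤ 15).card ≤
    3 ^ n * (((n + 1) ^ 15) ^ 14 * 2 ^ ((n - 1).choose 2)) := by
  let Sm := univ.filter fun S : Finset (Fin n) => S.card ≤ 15
  let P := powersetCard 2 (univ.erase z)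
  let av : Finset (Fin n) → Fin 3 := fun e => if h : ∃ i, q i ∈ e then μ h.choose else ε
  let Ex : Col n → Fin 14 → Finset (Fin n) := fun c i =>
    if q i = z then ∅ else Nb c (μ i) (q i)
  have := card_le_card_of_injOn (s := univ.filter fun c : Col n => Good (KK n) c ∧
      (∀ a b, a ≠ b → (∀ i, q i ≠ a) → (∀ i, q i ≠ b) → cl c {a, b} ≠ ε) ∧
      ∀ i, q i ≠ z → (Nb c (μ i) (q i)).card ≤ 15)
    (t := (univ : Finset (Fin n → Fin 3)) ×ˢ ((Fintype.piFinset fun _ : Fin 14 => Sm) ×ˢ
      P.powerset))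
    (fun c => (fun w => cl c {z, w}, Ex c, P.filter fun e => cl c e = av e + 1)) ?_ ?_
  · refine this.trans ?_
    rw [card_product, card_product, Fintype.card_piFinset, prod_const, card_powerset,
      card_powersetCard, card_erase_of_mem (mem_univ _)]
    have s := small (Fin n) 15
    simp only [card_univ, Fintype.card_fun, Fintype.card_fin] at s ⊢
    exact Nat.mul_le_mul_left _ (Nat.mul_le_mul_right _ (Nat.pow_le_pow_left s _))
  · intro c hc
    have hc := (mem_filter.1 (mem_coe.1 hc)).2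
    simp only [coe_product, Set.mem_prod, coe_univ, Set.mem_univ, true_and, mem_coe,
      Fintype.mem_piFinset, Sm, mem_filter, mem_univ, mem_powerset, filter_subset, and_true]
    intro i
    simp only [Ex]
    split_ifs with h
    · simp
    · exact hc.2.2 i h
  · have key : ∀ c c' : Col n, (∀ a b, a ≠ b → (∀ i, q i ≠ a) → (∀ i, q i ≠ b) →
        cl c {a, b} ≠ ε) → Ex c = Ex c' → ∀ u v, u ≠ v → u ≠ z → v ≠ z →
        cl c {u, v} = av {u, v} → cl c' {u, v} = av {u, v} := by
      intro c c' h1 e u v huv hu hv h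
      by_cases hq : ∃ i, q i ∈ ({u, v} : Finset (Fin n))
      · have a : av {u, v} = μ hq.choose := dif_pos hq
        have b := hq.choose_spec
        rw [a] at h ⊢
        generalize hq.choose = i at h b ⊢
        have e2 := congrFun e i
        simp only [mem_insert, mem_singleton] at b
        rcases b with b | b
        · simp only [Ex, b, hu, if_false] at e2
          have : v ∈ Nb c (μ i) u := mem_filter.2 ⟨mem_univ _, huv.symm, h⟩
          rw [e2] at this
          exact (mem_filter.1 this).2.2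
        · simp only [Ex, b, hv, if_false] at e2
          rw [pair_comm] at h ⊢
          have : u ∈ Nb c (μ i) v := mem_filter.2 ⟨mem_univ _, huv, h⟩
          rw [e2] at this
          exact (mem_filter.1 this).2.2
      · have a : av {u, v} = ε := dif_neg hq
        rw [a] at h
        push Not at hq
        exact absurd h (h1 u v huv (fun i e => hq i (by simp [e])) (fun i e => hq i (by simp [e])))
    intro c hc c' hc' e
    have hc := (mem_filter.1 (mem_coe.1 hc)).2
    have hc' := (mem_filter.1 (mem_coe.1 hc')).2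
    simp only [Prod.mk.injEq] at e
    refine c_ext hc.1 hc'.1 fun u v huv => ?_
    by_cases hu : u = z
    · subst hu; exact congrFun e.1 v
    by_cases hv : v = z
    · subst hv; rw [pair_comm]; exact congrFun e.1 u
    have m : ({u, v} : Finset (Fin n)) ∈ P := by
      refine mem_powersetCard.2 ⟨?_, card_pair huv⟩
      intro x hx
      simp only [mem_insert, mem_singleton] at hx
      rcases hx with rfl | rfl <;> simpa
    have b1 := key c c' hc.2.1 e.2.1 u v huv hu hv
    have b2 := key c' c hc'.2.1 e.2.1.symm u v huv hu hv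
    have b3 : cl c {u, v} = av {u, v} + 1 ↔ cl c' {u, v} = av {u, v} + 1 := by
      have := Finset.ext_iff.1 e.2.2 {u, v}
      simpa [m] using this
    revert b1 b2 b3
    generalize cl c {u, v} = x
    generalize cl c' {u, v} = y
    generalize av {u, v} = w
    revert x y w
    decide

end Pool.Agent.H.MP_7ad145_co
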