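import Pool.Agent.H.MP_7ad145_co.B

namespace Pool.Agent.H.MP_7ad145_co
open Finset

variable {n : ℕ}

open Classical in
lemma upper (z0 : Fin n) : (univ.filter fun c : Col n => Good (KK n) c).card ≤
    8 ^ n * ((3 * n + 1) ^ 45) ^ n + n ^ 28 * 3 * (3 ^ n) ^ 28 +
      n ^ 14 * (n * (3 * 3 ^ 14)) * (3 ^ n * (((n + 1) ^ 15) ^ 14 * 2 ^ ((n - 1).choose 2))) := by
  let S1 := univ.filter fun c : Col n => Good (KK n) c ∧ ∀ γ, Big c γ
  let S2 := (univ : Finset ((Fin 28 → Fin n) × Fin 3)).biUnion fun x =>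
    univ.filter fun c : Col n => Good (KK n) c ∧
      ∀ a b, a ≠ b → (∀ i, x.1 i ≠ a) → (∀ i, x.1 i ≠ b) → cl c {a, b} = x.2
  let S3 := (univ : Finset ((Fin 14 → Fin n) × Fin n × Fin 3 × (Fin 14 → Fin 3))).biUnion fun x =>
    univ.filter fun c : Col n => Good (KK n) c ∧
      (∀ a b, a ≠ b → (∀ i, x.1 i ≠ a) → (∀ i, x.1 i ≠ b) → cl c {a, b} ≠ x.2.2.1) ∧
      ∀ i, x.1 i ≠ x.2.1 → (Nb c (x.2.2.2 i) (x.1 i)).card ≤ 15
  have c2 : S2.card ≤ n ^ 28 * 3 * (3 ^ n) ^ 28 := by
    refine (card_biUnion_le_card_mul _ _ _ fun x _ => caseA2 x.1 x.2).trans ?_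
    simp
  have c3 : S3.card ≤ n ^ 14 * (n * (3 * 3 ^ 14)) *
      (3 ^ n * (((n + 1) ^ 15) ^ 14 * 2 ^ ((n - 1).choose 2))) := by
    refine (card_biUnion_le_card_mul _ _ _ fun x _ => caseA1 x.1 x.2.1 x.2.2.1 x.2.2.2).trans ?_
    simp
  have sub : (univ.filter fun c : Col n => Good (KK n) c) ⊆ S1 ∪ S2 ∪ S3 := by
    intro c hc
    have hc := (mem_filter.1 hc).2
    by_cases hb : ∀ γ, Big c γ
    · exact mem_union_left _ (mem_union_left _ (mem_filter.2 ⟨mem_univ _, hc, hb⟩))
    push Not at hb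
    obtain ⟨ε, hε⟩ := hb
    unfold Big at hε
    push Not at hε
    obtain ⟨W, hW, h1⟩ := hε
    by_cases hb : ∀ δ, δ ≠ ε → Big c δ
    · refine mem_union_right _ ?_
      obtain ⟨q, hq⟩ := enum z0 W 14 hW
      have hz : ∃ z, ∀ u, u ≠ z → ∃ γ, (Nb c γ u).card ≤ 15 := by
        by_contra hz
        push Not at hz
        obtain ⟨u, -, hu⟩ := hz z0
        obtain ⟨v, huv, hv⟩ := hz u
        obtain ⟨δ, η, d1, d2, d3, d4⟩ : ∃ δ η, δ ≠ cl c {u, v} ∧ η ≠ cl c {u, v} ∧ η ≠ δ ∧
            η ≠ ε := by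
          generalize cl c {u, v} = a
          revert a
          clear * -
          revert ε; decide
        exact star hc huv.symm rfl d1 d2 d3 (hu _) (hv _) (hu _) (hv _) (hb η d4)
      obtain ⟨z, hz⟩ := hz
      have hμ : ∀ i, ∃ γ, q i ≠ z → (Nb c γ (q i)).card ≤ 15 := by
        intro i
        by_cases h : q i = z
        · exact ⟨0, fun h' => absurd h h'⟩
        · exact (hz _ h).imp fun _ a _ => a
      choose μ hμ using hμ
      refine mem_biUnion.2 ⟨(q, z, ε, μ), mem_univ _, mem_filter.2 ⟨mem_univ _, hc, ?_, hμ⟩⟩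
      intro a b hab ha hb
      exact h1 a b hab (fun h => (hq a h).elim ha) (fun h => (hq b h).elim hb)
    · push Not at hb
      obtain ⟨δ, hd, hδ⟩ := hb
      unfold Big at hδ
      push Not at hδ
      obtain ⟨W', hW', h2⟩ := hδ
      obtain ⟨q, hq⟩ := enum z0 (W ∪ W') 28 ((card_union_le _ _).trans (by omega))
      obtain ⟨η, hη⟩ : ∃ η : Fin 3, ∀ x, x ≠ ε → x ≠ δ → x = η := by
        clear * - hd
        revert δ ε; decide
      refine mem_union_left _ (mem_union_right _ (mem_biUnion.2 ⟨(q, η), mem_univ _,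
        mem_filter.2 ⟨mem_univ _, hc, ?_⟩⟩))
      intro a b hab ha hb
      exact hη _ (h1 a b hab (fun h => (hq a (mem_union_left _ h)).elim ha)
        (fun h => (hq b (mem_union_left _ h)).elim hb))
        (h2 a b hab (fun h => (hq a (mem_union_right _ h)).elim ha)
        (fun h => (hq b (mem_union_right _ h)).elim hb))
  have c1 : S1.card ≤ _ := caseB
  have := (card_le_card sub).trans ((card_union_le _ _).trans
    (Nat.add_le_add_right (card_union_le _ _) _))
  omega

open Classical in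
lemma lower (j : ℕ) (u v : Fin (j + 2)) (huv : u ≠ v) :
    3 ^ (2 * j) * 2 ^ (j.choose 2) ≤
      (univ.filter fun c : Col (j + 2) => Good ((KK (j + 2)).erase {u, v}) c).card := by
  let H := (KK (j + 2)).erase {u, v}
  let P := powersetCard 2 ((univ : Finset (Fin (j + 2))) \ {u, v})
  let A : Finset (Fin (j + 2)) → Finset (Option (Fin 3)) := fun e =>
    if e ∈ H then (if e ∈ P then {some 0, some 1} else {some 0, some 1, some 2}) else {none}
  have PH : P ⊆ H := by
    intro e he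
    have := mem_powersetCard.1 he
    refine mem_erase.2 ⟨?_, mem_powersetCard.2 ⟨subset_univ _, this.2⟩⟩
    rintro rfl
    simpa using this.1 (mem_insert_self u {v})
  have cP : P.card = j.choose 2 := by
    rw [card_powersetCard, card_univ_sdiff, card_pair huv]; simp
  have cH : H.card = j.choose 2 + 2 * j := by
    rw [card_erase_of_mem (pair_mem huv), card_powersetCard]
    simp only [card_univ, Fintype.card_fin]
    rw [Nat.choose_succ_succ' (j + 1) 1, Nat.choose_succ_succ' j 1]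
    simp; omega
  have cA : (Fintype.piFinset A).card = 3 ^ (2 * j) * 2 ^ (j.choose 2) := by
    rw [Fintype.card_piFinset]
    have e1 : ∀ e, (A e).card = if e ∈ H then (if e ∈ P then 2 else 3) else 1 := by
      intro e
      simp only [A]
      split_ifs <;> rfl
    simp only [e1]
    rw [prod_ite, prod_const_one, mul_one, filter_mem_eq_inter, univ_inter, prod_ite, prod_const,
      prod_const, filter_mem_eq_inter, inter_eq_right.2 PH, filter_not, filter_mem_eq_inter,
      inter_eq_right.2 PH, card_sdiff_of_subset PH, cP, cH, mul_comm]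
    congr 2; omega
  rw [← cA]
  refine card_le_card fun c hc => mem_filter.2 ⟨mem_univ _, ?_, ?_⟩
  · intro e
    have := Fintype.mem_piFinset.1 hc e
    simp only [A] at this
    split_ifs at this with h1 h2
    · simp only [mem_insert, mem_singleton] at this
      rcases this with h | h <;> simp [h, H] <;> simpa [H] using h1
    · simp only [mem_insert, mem_singleton] at this
      rcases this with h | h | h <;> simp [h, H] <;> simpa [H] using h1
    · exact ⟨fun _ => h1, fun _ => mem_singleton.1 this⟩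
  · rintro ⟨φ, hi, h1, h2⟩
    let Q : Fin 16 → Prop := fun i => φ i = u ∨ φ i = v
    have three : ∀ a b d : Fin 16, a ≠ b → a ≠ d → b ≠ d → Q a → Q b → Q d → False := by
      intro a b d h1 h2 h3 x y z
      have := hi.ne h1
      have := hi.ne h2
      have := hi.ne h3
      rcases x with x | x <;> rcases y with y | y <;> rcases z with z | z <;> simp_all
    have k1 : ∀ t ∈ tb, ({φ t.1, φ t.2.1} : Finset _) ∈ H := by
      intro t ht
      have := h1 _ (mem_FF.2 ⟨t, ht, rfl⟩)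
      rwa [image_insert, image_singleton] at this
    have k2 : ∀ t ∈ tb, ∀ t' ∈ tb, (c {φ t.1, φ t.2.1} = c {φ t'.1, φ t'.2.1} ↔
        t.2.2 = t'.2.2) := by
      intro t ht t' ht'
      have := h2 _ (mem_FF.2 ⟨t, ht, rfl⟩) _ (mem_FF.2 ⟨t', ht', rfl⟩)
      rw [(tb_ok t ht).2, (tb_ok t' ht').2] at this
      simpa using this
    have two : Q 15 → Q 14 → False := by
      intro x y
      have a := (mem_erase.1 (k1 (15, 14, 1) (by decide))).1
      have b := hi.ne (show (15 : Fin 16) ≠ 14 by decide)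
      rcases x with x | x <;> rcases y with y | y <;> simp only [x, y] at a b
      · exact b rfl
      · exact a rfl
      · exact a (pair_comm _ _)
      · exact b rfl
    have k3 : ∀ t ∈ tb, c {φ t.1, φ t.2.1} = some 0 ∨ c {φ t.1, φ t.2.1} = some 1 ∨
        (c {φ t.1, φ t.2.1} = some 2) := by
      intro t ht
      have := Fintype.mem_piFinset.1 hc {φ t.1, φ t.2.1}
      simp only [A, k1 t ht, if_true] at this
      split_ifs at this
      · simp only [mem_insert, mem_singleton] at this; tauto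
      · simpa using this
    have k4 : ∀ t ∈ tb, c {φ t.1, φ t.2.1} = some 2 → Q t.1 ∨ Q t.2.1 := by
      intro t ht h
      have := Fintype.mem_piFinset.1 hc {φ t.1, φ t.2.1}
      simp only [A, k1 t ht, if_true, h] at this
      split_ifs at this with h3
      · simp at this
      by_contra hq
      apply h3
      refine mem_powersetCard.2 ⟨?_, card_pair (hi.ne (tb_ok t ht).1)⟩
      intro x hx
      simp only [Q, not_or] at hq
      simp only [mem_insert, mem_singleton] at hx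
      rcases hx with rfl | rfl <;> simp [hq]
    have k5 : ∃ t ∈ tb, c {φ t.1, φ t.2.1} = some 2 := by
      have a := k3 (15, 14, 1) (by decide)
      have b := k3 (15, 9, 0) (by decide)
      have d := k3 (1, 0, 2) (by decide)
      have e1 := mt (k2 (15, 14, 1) (by decide) (15, 9, 0) (by decide)).1 (by decide)
      have e2 := mt (k2 (15, 14, 1) (by decide) (1, 0, 2) (by decide)).1 (by decide)
      have e3 := mt (k2 (15, 9, 0) (by decide) (1, 0, 2) (by decide)).1 (by decide)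
      rcases a with a | a | a
      rotate_left 2
      · exact ⟨_, by decide, a⟩
      all_goals
        rcases b with b | b | b
        rotate_left 2
        · exact ⟨_, by decide, b⟩
        all_goals
          rcases d with d | d | d
          rotate_left 2
          · exact ⟨_, by decide, d⟩
          all_goals simp_all
    obtain ⟨t0, ht0, h0⟩ := k5
    have k6 : ∀ t ∈ tb, t.2.2 = t0.2.2 → Q t.1 ∨ Q t.2.1 := fun t ht e =>
      k4 t ht (((k2 t ht t0 ht0).2 e).trans h0)
    have star2 : ∀ a b d e : Fin 16, a ≠ b → d ≠ e → a ≠ 14 → b ≠ 14 → d ≠ 15 → e ≠ 15 →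
        a ≠ d → b ≠ d → Q 15 ∨ Q a → Q 15 ∨ Q b → Q 14 ∨ Q d → Q 14 ∨ Q e → False := by
      intro a b d e n1 n2 n3 n4 n5 n6 n7 n8 x1 x2 x3 x4
      by_cases y : Q 15
      · exact three d e 15 n2 n5 n6 (x3.resolve_left (two y)) (x4.resolve_left (two y)) y
      · rcases x3 with x3 | x3
        · exact three a b 14 n1 n3 n4 (x1.resolve_left y) (x2.resolve_left y) x3
        · exact three a b d n1 n7 n8 (x1.resolve_left y) (x2.resolve_left y) x3
    rcases (by decide : ∀ x : Fin 3, x = 0 ∨ x = 1 ∨ x = 2) t0.2.2 with e | e | e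
    · exact star2 9 8 7 6 (by decide) (by decide) (by decide) (by decide) (by decide) (by decide)
        (by decide) (by decide) (k6 (15, 9, 0) (by decide) e.symm) (k6 (15, 8, 0) (by decide) e.symm)
        (k6 (14, 7, 0) (by decide) e.symm) (k6 (14, 6, 0) (by decide) e.symm)
    · exact star2 13 12 11 10 (by decide) (by decide) (by decide) (by decide) (by decide)
        (by decide) (by decide) (by decide) (k6 (15, 13, 1) (by decide) e.symm)
        (k6 (15, 12, 1) (by decide) e.symm)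
        (k6 (14, 11, 1) (by decide) e.symm) (k6 (14, 10, 1) (by decide) e.symm)
    · rcases k6 (5, 4, 2) (by decide) e.symm with a | a <;>
        rcases k6 (3, 2, 2) (by decide) e.symm with b | b <;>
        rcases k6 (1, 0, 2) (by decide) e.symm with d | d <;>
        exact three _ _ _ (by decide) (by decide) (by decide) a b d

lemma big (n0 : ℕ) : ∃ i, n0 ≤ i ∧ 10 ≤ i ∧ (12 * (i + 1)) ^ 300 ≤ 2 ^ i := by
  have h : ∀ w, 300 * (w + 13 + 4) + 1 ≤ 2 ^ (w + 13) := by
    intro w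
    induction w with
    | zero => norm_num
    | succ w ih => rw [show w + 1 + 13 = w + 13 + 1 by ring, pow_succ]; omega
  have := h n0
  refine ⟨2 ^ (n0 + 13) - 1, by omega, by omega, ?_⟩
  rw [Nat.sub_add_cancel (by omega)]
  calc (12 * 2 ^ (n0 + 13)) ^ 300 ≤ (2 ^ (n0 + 13 + 4)) ^ 300 :=
        Nat.pow_le_pow_left (by rw [pow_add 2 (n0 + 13) 4]; omega) _
    _ = 2 ^ (300 * (n0 + 13 + 4)) := by rw [← pow_mul, mul_comm]
    _ ≤ _ := Nat.pow_le_pow_right (by norm_num) (by omega)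

lemma p3 (j n : ℕ) (h : n = j + 2) : (3 : ℕ) ^ n = 3 ^ j * 9 := by subst h; ring

lemma p4 (j : ℕ) : (6 : ℕ) ^ j = 3 ^ j * 2 ^ j := mul_pow 3 2 j

lemma p5 (x : ℕ) : (x ^ 15) ^ 14 = x ^ 210 := by ring

lemma p6 (n X Y Z U V W T : ℕ) (a : 3 ^ 18 * (Y * n) * X ≤ T) (b : T * (V * W) ≤ U) :
    3 * (Y * (n * (3 * 3 ^ 14)) * (V * 9 * (X * (W * Z)))) ≤ U * Z :=
  calc _ = (3 ^ 18 * (Y * n) * X) * (V * W) * Z := by ring
    _ ≤ T * (V * W) * Z := by gcongr
    _ ≤ _ := Nat.mul_le_mul_right _ b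

lemma p7 (A B C D E : ℕ) (t1 : A ≤ E) (t2 : B ≤ E) (t3 : 3 * C ≤ D) (t4 : 3 * E ≤ D) :
    A + B + C ≤ D := by omega

lemma numeric (i : ℕ) (h1 : 10 ≤ i) (h2 : (12 * (i + 1)) ^ 300 ≤ 2 ^ i) (j n : ℕ) (hj : j = 4 * i)
    (hn : n = j + 2) :
    8 ^ n * ((3 * n + 1) ^ 45) ^ n + n ^ 28 * 3 * (3 ^ n) ^ 28 +
      n ^ 14 * (n * (3 * 3 ^ 14)) * (3 ^ n * (((n + 1) ^ 15) ^ 14 * 2 ^ ((n - 1).choose 2))) ≤
    3 ^ (2 * j) * 2 ^ (j.choose 2) := by
  obtain ⟨M, hM⟩ : ∃ M, M = 12 * (i + 1) := ⟨_, rfl⟩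
  rw [← hM] at h2
  have m1 : 3 * n + 1 ≤ M := by omega
  have m2 : n + 1 ≤ M := by omega
  have m3 : n ≤ M := by omega
  have m4 : 8 ≤ M := by omega
  have m5 : 3 ≤ M := by omega
  have m6 : 1 ≤ M := by omega
  have c1 : i * n ≤ j.choose 2 := by
    rw [Nat.choose_two_right, Nat.le_div_iff_mul_le (by norm_num)]
    obtain ⟨k, rfl⟩ : ∃ k, i = k + 10 := ⟨i - 10, by omega⟩
    have : j - 1 = 4 * k + 39 := by omega
    rw [this, hn, hj]; nlinarith
  have c2 : (M ^ 300) ^ n ≤ 2 ^ (j.choose 2) :=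
    (Nat.pow_le_pow_left h2 _).trans (by rw [← pow_mul]; exact Nat.pow_le_pow_right (by norm_num) c1)
  have t1 : 8 ^ n * ((3 * n + 1) ^ 45) ^ n ≤ 2 ^ (j.choose 2) := by
    refine le_trans ?_ c2
    rw [← mul_pow]
    refine Nat.pow_le_pow_left ?_ _
    calc 8 * (3 * n + 1) ^ 45 ≤ M * M ^ 45 := by gcongr
      _ = M ^ 46 := by ring
      _ ≤ _ := Nat.pow_le_pow_right m6 (by norm_num)
  have t2 : n ^ 28 * 3 * (3 ^ n) ^ 28 ≤ 2 ^ (j.choose 2) := by
    refine le_trans ?_ c2
    calc n ^ 28 * 3 * (3 ^ n) ^ 28 ≤ M ^ 28 * M * (M ^ n) ^ 28 := by gcongr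
      _ = M ^ (29 + 28 * n) := by ring
      _ ≤ M ^ (300 * n) := Nat.pow_le_pow_right m6 (by omega)
      _ = _ := by rw [pow_mul]
  have t3 : 3 * (n ^ 14 * (n * (3 * 3 ^ 14)) *
      (3 ^ n * (((n + 1) ^ 15) ^ 14 * 2 ^ ((n - 1).choose 2)))) ≤
      3 ^ (2 * j) * 2 ^ (j.choose 2) := by
    have e : (n - 1).choose 2 = j + j.choose 2 := by
      rw [show n - 1 = j + 1 by omega, Nat.choose_succ_succ' j 1]; simp
    have a : 3 ^ 18 * n ^ 15 * (n + 1) ^ 210 ≤ 2 ^ i := by
      refine le_trans ?_ h2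
      calc 3 ^ 18 * n ^ 15 * (n + 1) ^ 210 ≤ M ^ 18 * M ^ 15 * M ^ 210 := by gcongr
        _ = M ^ 243 := by ring
        _ ≤ _ := Nat.pow_le_pow_right m6 (by norm_num)
    have b : 2 ^ i * 6 ^ j ≤ 3 ^ (2 * j) := by
      rw [hj, pow_mul 6, ← mul_pow, ← mul_assoc, pow_mul]
      exact Nat.pow_le_pow_left (by norm_num) _
    have e3 := p3 j n hn
    rw [p4] at b
    rw [pow_succ n 14] at a
    rw [e, e3, p5, pow_add 2 j]
    exact p6 _ _ _ _ _ _ _ _ a b
  have t4 : 3 * 2 ^ (j.choose 2) ≤ 3 ^ (2 * j) * 2 ^ (j.choose 2) :=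
    Nat.mul_le_mul_right _ (Nat.le_self_pow (by omega) 3)
  exact p7 _ _ _ _ _ t1 t2 t3 t4

open Classical in
theorem main (n0 : ℕ) : ∃ n, n0 ≤ n ∧ ∃ H : Finset (Finset (Fin n)), (∀ e ∈ H, e.card = 2) ∧
    H ≠ KK n ∧ Nat.card {c : Col n // Good (KK n) c} ≤ Nat.card {c : Col n // Good H c} := by
  obtain ⟨i, a1, a2, a3⟩ := big n0
  have huv : (0 : Fin (4 * i + 2)) ≠ 1 := by simp
  refine ⟨4 * i + 2, by omega, (KK _).erase {0, 1}, fun e he =>
    (mem_powersetCard.1 (mem_of_mem_erase he)).2, ?_, ?_⟩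
  · intro h
    have := pair_mem huv
    rw [← h] at this
    exact notMem_erase _ _ this
  · rw [Nat.card_eq_fintype_card, Nat.card_eq_fintype_card, Fintype.card_subtype,
      Fintype.card_subtype]
    exact (upper 0).trans ((numeric i a2 a3 _ _ rfl rfl).trans (lower _ 0 1 huv))

end Pool.Agent.H.MP_7ad145_co
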